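import Pool.Agent.Run7.h991.MU.Iface

/-!
# Piece LAG of project MU
-/

open MeasureTheory Metric

namespace H991.MU

/-- `y ^ m ≤ exp (2 m √y)` -/
theorem h398_pow_le (y : ℝ) (hy : 0 ≤ y) (m : ℕ) : y ^ m ≤ Real.exp (2 * m * √y) := by
  have h1 : √y ≤ Real.exp (√y) := by
    have := Real.add_one_le_exp (√y)
    linarith
  have h2 : y ≤ Real.exp (2 * √y) := by
    have h3 : y = √y * √y := (Real.mul_self_sqrt hy).symm
    calc y = √y * √y := h3
      _ ≤ Real.exp (√y) * Real.exp (√y) := by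
        apply mul_le_mul h1 h1 (Real.sqrt_nonneg y) (Real.exp_pos _).le
      _ = Real.exp (2 * √y) := by rw [← Real.exp_add]; ring_nf
  calc y ^ m ≤ (Real.exp (2 * √y)) ^ m := pow_le_pow_left₀ hy h2 m
    _ = Real.exp (2 * m * √y) := by rw [← Real.exp_nat_mul]; ring_nf

/-- the growth of the interpolation polynomial -/
theorem h398_growth (ρ θ d : ℝ) (m : ℕ) (hρ : 0 < ρ) (hd : 0 < d) (hm : 1 ≤ m)
    (hmθ : (m : ℝ) ≤ θ * ρ) (hθd : θ ≤ (d / 60) ^ 2) :
    (54 * ρ / m) ^ m ≤ Real.exp (d * ρ / 4) := by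
  have hm0 : (0 : ℝ) < m := by exact_mod_cast hm
  have hy : 0 ≤ 54 * ρ / m := by positivity
  refine (h398_pow_le _ hy m).trans (Real.exp_le_exp.2 ?_)
  have h1 : √(54 * ρ / m) ≤ (d / 8) * ρ / m := by
    apply Real.sqrt_le_iff.2
    refine ⟨by positivity, ?_⟩
    rw [div_pow, div_le_div_iff₀ hm0 (by positivity)]
    have h2 : (m : ℝ) ≤ (d / 60) ^ 2 * ρ :=
      hmθ.trans (mul_le_mul_of_nonneg_right hθd hρ.le)
    have h3 : 54 * ρ * (m : ℝ) ^ 2 ≤ 54 * ρ * (m * ((d / 60) ^ 2 * ρ)) := by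
      rw [pow_two]
      apply mul_le_mul_of_nonneg_left _ (by positivity)
      exact mul_le_mul_of_nonneg_left h2 hm0.le
    have h4 : 54 * ρ * (m * ((d / 60) ^ 2 * ρ)) ≤ (d / 8 * ρ) ^ 2 * m := by
      have h5 : 0 ≤ d ^ 2 * ρ ^ 2 * m := by positivity
      nlinarith
    exact h3.trans h4
  calc 2 * (m : ℝ) * √(54 * ρ / m) ≤ 2 * m * ((d / 8) * ρ / m) := by
        apply mul_le_mul_of_nonneg_left h1 (by positivity)
    _ = d * ρ / 4 := by field_simp; ring

theorem t_LAG (hZ : S_ZER) (hL : S_LPR) : S_LAG := by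
  intro δ d hδ hd
  obtain ⟨θ, hθ⟩ : ∃ θ : ℝ, θ = min (min (δ / 2) (1 / 2)) ((d / 60) ^ 2) := ⟨_, rfl⟩
  have hθ0 : 0 < θ := by rw [hθ]; positivity
  have hθ1 : θ ≤ δ / 2 := by rw [hθ]; exact (min_le_left _ _).trans (min_le_left _ _)
  have hθ2 : θ ≤ 1 / 2 := by rw [hθ]; exact (min_le_left _ _).trans (min_le_right _ _)
  have hθ3 : θ ≤ (d / 60) ^ 2 := by rw [hθ]; exact min_le_right _ _
  have hmin : 0 < min θ d := lt_min hθ0 hd
  refine ⟨min θ d / 4, max (1 / θ) (max (32 / d ^ 2) (8 / min θ d)), by positivity,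
    lt_max_of_lt_left (by positivity), ?_⟩
  intro ρ Y g B hρ hg hg1 hB hcard w hw
  have hρ1 : 1 / θ ≤ ρ := (le_max_left _ _).trans hρ
  have hρ2 : 32 / d ^ 2 ≤ ρ := ((le_max_left _ _).trans (le_max_right _ _)).trans hρ
  have hρ3 : 8 / min θ d ≤ ρ := ((le_max_right _ _).trans (le_max_right _ _)).trans hρ
  have hρ0 : 0 < ρ := lt_of_lt_of_le (by positivity) hρ1
  have hθρ : 1 ≤ θ * ρ := by
    rw [div_le_iff₀ hθ0] at hρ1
    linarith
  obtain ⟨m, hm⟩ : ∃ m : ℕ, m = ⌊θ * ρ⌋₊ := ⟨_, rfl⟩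
  have hmle : (m : ℝ) ≤ θ * ρ := by rw [hm]; exact Nat.floor_le (by positivity)
  have hmlt : θ * ρ < m + 1 := by rw [hm]; exact Nat.lt_floor_add_one _
  have hm1 : 1 ≤ m := by rw [hm]; exact Nat.le_floor (by exact_mod_cast hθρ)
  have hs : m + 1 ≤ B.card := by
    have h1 : ((m + 1 : ℕ) : ℝ) ≤ (B.card : ℝ) := by
      push_cast
      nlinarith
    exact_mod_cast h1
  obtain ⟨B', hB'B, hB'⟩ := Finset.exists_subset_card_eq hs
  -- the interpolation polynomial
  let P : ℂ → ℂ := fun z => ∑ i ∈ B', g (i : ℂ) * ∏ j ∈ B'.erase i, ((z - (j : ℂ)) / ((i : ℂ) - (j : ℂ)))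
  have hPd : Differentiable ℂ P := by
    intro z
    apply DifferentiableAt.fun_sum
    intro i _
    apply DifferentiableAt.const_mul
    apply DifferentiableAt.fun_finsetProd
    intro j _
    exact (differentiableAt_id.sub_const _).div_const _
  have hPi : ∀ i ∈ B', P (i : ℂ) = g (i : ℂ) := by
    intro i hi
    change ∑ i' ∈ B', g (i' : ℂ) * ∏ j ∈ B'.erase i', (((i : ℂ) - (j : ℂ)) / ((i' : ℂ) - (j : ℂ))) = _
    rw [Finset.sum_eq_single_of_mem i hi]
    · rw [Finset.prod_eq_one, mul_one]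
      intro j hj
      apply div_self
      rw [sub_ne_zero]
      intro h
      exact (Finset.ne_of_mem_erase hj) (Nat.cast_injective h).symm
    · intro i' hi' hne
      rw [Finset.prod_eq_zero (i := i) (Finset.mem_erase.2 ⟨hne.symm, hi⟩), mul_zero]
      simp
  have hPb : ∀ z ∈ ball (Y : ℂ) (8 * ρ), ‖P z‖ ≤ Real.exp (-(d * ρ / 2)) := by
    intro z hz
    have h1 : ∀ i ∈ B', ‖g (i : ℂ) * ∏ j ∈ B'.erase i, ((z - (j : ℂ)) / ((i : ℂ) - (j : ℂ)))‖ ≤
        Real.exp (-(d * ρ)) * Real.exp (d * ρ / 4) := by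
      intro i hi
      rw [norm_mul, norm_prod]
      have hi2 := (hB i (hB'B hi)).2
      apply mul_le_mul hi2 _ (Finset.prod_nonneg fun _ _ => norm_nonneg _) (Real.exp_pos _).le
      have h2 : ∏ j ∈ B'.erase i, ‖(z - (j : ℂ)) / ((i : ℂ) - (j : ℂ))‖ =
          (∏ j ∈ B'.erase i, ‖z - (j : ℂ)‖) / ∏ j ∈ B'.erase i, |(i : ℝ) - (j : ℝ)| := by
        rw [← Finset.prod_div_distrib]
        apply Finset.prod_congr rfl
        intro j _
        have h7 : (i : ℂ) - (j : ℂ) = (((i : ℝ) - (j : ℝ) : ℝ) : ℂ) := by push_cast; rfl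
        rw [norm_div, h7, Complex.norm_real, Real.norm_eq_abs]
      have h3 : ∏ j ∈ B'.erase i, ‖z - (j : ℂ)‖ ≤ (9 * ρ) ^ m := by
        have h4 : ∏ j ∈ B'.erase i, ‖z - (j : ℂ)‖ ≤ ∏ j ∈ B'.erase i, (9 * ρ) := by
          apply Finset.prod_le_prod (fun _ _ => norm_nonneg _)
          intro j hj
          have hj2 := (hB j (hB'B (Finset.mem_of_mem_erase hj))).1
          have h5 : ‖z - (Y : ℂ)‖ < 8 * ρ := by rw [← dist_eq_norm]; exact hz
          have h6 : ‖(Y : ℂ) - (j : ℂ)‖ ≤ ρ := by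
            have h7 : (Y : ℂ) - (j : ℂ) = ((Y - (j : ℝ) : ℝ) : ℂ) := by push_cast; rfl
            rw [h7, Complex.norm_real, Real.norm_eq_abs, abs_sub_comm]
            exact hj2
          calc ‖z - (j : ℂ)‖ = ‖(z - (Y : ℂ)) + ((Y : ℂ) - (j : ℂ))‖ := by congr 1; ring
            _ ≤ ‖z - (Y : ℂ)‖ + ‖(Y : ℂ) - (j : ℂ)‖ := norm_add_le _ _
            _ ≤ 9 * ρ := by linarith
        rw [Finset.prod_const, Finset.card_erase_of_mem hi, hB'] at h4
        simpa using h4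
      have h8 := hL B' i hi
      rw [hB'] at h8
      have h9 : ((m : ℝ) / 6) ^ m ≤ ∏ j ∈ B'.erase i, |(i : ℝ) - (j : ℝ)| := by
        simpa using h8
      have hm0 : (0 : ℝ) < m := by exact_mod_cast hm1
      have h10 : (0 : ℝ) < ((m : ℝ) / 6) ^ m := by positivity
      rw [h2]
      calc (∏ j ∈ B'.erase i, ‖z - (j : ℂ)‖) / ∏ j ∈ B'.erase i, |(i : ℝ) - (j : ℝ)|
          ≤ (9 * ρ) ^ m / ((m : ℝ) / 6) ^ m := by
            apply div_le_div₀ (by positivity) h3 h10 h9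
        _ = (54 * ρ / m) ^ m := by
            rw [← div_pow]
            congr 1
            field_simp
            ring
        _ ≤ Real.exp (d * ρ / 4) := h398_growth ρ θ d m hρ0 hd hm1 hmle hθ3
    have h11 : ‖P z‖ ≤ (m + 1 : ℕ) * (Real.exp (-(d * ρ)) * Real.exp (d * ρ / 4)) := by
      refine (norm_sum_le _ _).trans ?_
      refine (Finset.sum_le_sum h1).trans ?_
      rw [Finset.sum_const, hB', nsmul_eq_mul]
    have h12 : ((m + 1 : ℕ) : ℝ) ≤ Real.exp (d * ρ / 4) := by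
      have h13 : ((m + 1 : ℕ) : ℝ) ≤ ρ := by
        push_cast
        nlinarith
      have h14 : ρ ≤ Real.exp (d * ρ / 4) := by
        have h15 := Real.quadratic_le_exp_of_nonneg (x := d * ρ / 4) (by positivity)
        rw [div_le_iff₀ (by positivity)] at hρ2
        have h16 : 32 * ρ ≤ ρ * d ^ 2 * ρ := mul_le_mul_of_nonneg_right hρ2 hρ0.le
        have h17 : 0 < d * ρ / 4 := by positivity
        nlinarith
      exact h13.trans h14
    calc ‖P z‖ ≤ (m + 1 : ℕ) * (Real.exp (-(d * ρ)) * Real.exp (d * ρ / 4)) := h11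
      _ ≤ Real.exp (d * ρ / 4) * (Real.exp (-(d * ρ)) * Real.exp (d * ρ / 4)) :=
          mul_le_mul_of_nonneg_right h12 (by positivity)
      _ = Real.exp (-(d * ρ / 2)) := by
          rw [← Real.exp_add, ← Real.exp_add]
          congr 1
          ring
  -- the difference has many zeros
  have hcast : Function.Injective (fun n : ℕ => (n : ℂ)) := Nat.cast_injective
  have hz := hZ ρ 2 (Y : ℂ) (fun z => g z - P z) (B'.image (fun n : ℕ => (n : ℂ))) hρ0 (by norm_num)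
    (hg.sub hPd.differentiableOn) ?_ ?_ w hw
  · rw [Finset.card_image_of_injective _ hcast, hB'] at hz
    have hwb : w ∈ ball (Y : ℂ) (8 * ρ) := by
      rw [mem_closedBall] at hw
      rw [mem_ball]
      linarith
    have h1 : ‖g w‖ ≤ 2 * (1 / 2) ^ (m + 1) + Real.exp (-(d * ρ / 2)) := by
      calc ‖g w‖ = ‖(g w - P w) + P w‖ := by congr 1; ring
        _ ≤ ‖g w - P w‖ + ‖P w‖ := norm_add_le _ _
        _ ≤ _ := add_le_add hz (hPb w hwb)
    have h2 : ((1 : ℝ) / 2) ^ (m + 1) ≤ Real.exp (-(θ * ρ / 2)) := by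
      have h3 : (1 : ℝ) / 2 ≤ Real.exp (-(1 / 2)) := by
        have := Real.add_one_le_exp (-(1 / 2) : ℝ)
        linarith
      calc ((1 : ℝ) / 2) ^ (m + 1) ≤ (Real.exp (-(1 / 2))) ^ (m + 1) :=
            pow_le_pow_left₀ (by norm_num) h3 _
        _ = Real.exp (-((m + 1 : ℕ) / 2)) := by
            rw [← Real.exp_nat_mul]
            congr 1
            push_cast
            ring
        _ ≤ Real.exp (-(θ * ρ / 2)) := by
            apply Real.exp_le_exp.2
            push_cast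
            linarith
    have h4 : Real.exp (-(θ * ρ / 2)) ≤ Real.exp (-(min θ d * ρ / 2)) := by
      apply Real.exp_le_exp.2
      have := mul_le_mul_of_nonneg_right (min_le_left θ d) hρ0.le
      linarith
    have h5 : Real.exp (-(d * ρ / 2)) ≤ Real.exp (-(min θ d * ρ / 2)) := by
      apply Real.exp_le_exp.2
      have := mul_le_mul_of_nonneg_right (min_le_right θ d) hρ0.le
      linarith
    have h6 : 3 ≤ Real.exp (min θ d * ρ / 4) := by
      have h7 : 8 ≤ min θ d * ρ := by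
        rw [div_le_iff₀ hmin] at hρ3
        linarith
      have := Real.add_one_le_exp (min θ d * ρ / 4)
      linarith
    calc ‖g w‖ ≤ 2 * (1 / 2) ^ (m + 1) + Real.exp (-(d * ρ / 2)) := h1
      _ ≤ 3 * Real.exp (-(min θ d * ρ / 2)) := by linarith
      _ ≤ Real.exp (min θ d * ρ / 4) * Real.exp (-(min θ d * ρ / 2)) :=
          mul_le_mul_of_nonneg_right h6 (Real.exp_pos _).le
      _ = Real.exp (-(min θ d / 4 * ρ)) := by
          rw [← Real.exp_add]
          congr 1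
          ring
  · intro z hz
    have h1 := hg1 z hz
    have h2 := hPb z hz
    have h3 : Real.exp (-(d * ρ / 2)) ≤ 1 := Real.exp_le_one_iff.2 (by
      have : 0 < d * ρ / 2 := by positivity
      linarith)
    calc ‖g z - P z‖ ≤ ‖g z‖ + ‖P z‖ := norm_sub_le _ _
      _ ≤ 2 := by linarith
  · intro a ha
    obtain ⟨n, hn, rfl⟩ := Finset.mem_image.1 ha
    refine ⟨?_, ?_⟩
    · have hn2 := (hB n (hB'B hn)).1
      rw [mem_closedBall, dist_eq_norm]
      have h7 : (n : ℂ) - (Y : ℂ) = (((n : ℝ) - Y : ℝ) : ℂ) := by push_cast; rfl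
      rw [h7, Complex.norm_real, Real.norm_eq_abs]
      exact hn2
    · change g (n : ℂ) - P (n : ℂ) = 0
      rw [hPi n hn, sub_self]

end H991.MU
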